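import Pool.Agent.HMT.Stmts

/-!
# Squad HMT, row FIN: from types to `Fin n`
-/

namespace Pool.Agent.HMT.H77

theorem fin (hci : HciStmt) : FinStmt := by
  intro P h N
  obtain ⟨V, W, _, _, G, H, hN, hc, hne, hi⟩ := h N
  refine ⟨Nat.card V, hN, G.comap (Finite.equivFin V).symm,
    H.comap (Finite.equivFinOfCardEq hc.symm).symm, ?_, ?_⟩
  · rintro ⟨φ⟩
    exact hne ⟨((SimpleGraph.Iso.comap (Finite.equivFin V).symm G).symm.trans φ).trans
      (SimpleGraph.Iso.comap (Finite.equivFinOfCardEq hc.symm).symm H)⟩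
  · unfold harary
    refine Finset.sum_congr rfl fun i _ => ?_
    rw [hci P _ _ _ _ ⟨SimpleGraph.Iso.comap (Finite.equivFin V).symm G⟩ i,
      hci P _ _ _ _ ⟨SimpleGraph.Iso.comap (Finite.equivFinOfCardEq hc.symm).symm H⟩ i, hi i]

end Pool.Agent.HMT.H77
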